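import Pool.Agent.LE.StmtsQX

/-!
# Squad LQX, row UPB: the part of `Y` (copy of Helper91_LQF/UPB.lean)
-/

set_option autoImplicit false

open MeasureTheory ProbabilityTheory Function Filter

open scoped ENNReal BigOperators Topology NNReal ComplexOrder Matrix

noncomputable section

namespace Pool.Agent.LE.QX.H87

open Pool.Agent.Anderson hiding box mem_box card_box
open Pool.Agent.Loc Pool.Agent.Mob Pool.Agent.Helper54.Bal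
  Pool.Agent.Helper96.EXP Pool.Agent.BED
open Pool.Agent.LE.MN Pool.Agent.LE.CL Pool.Agent.LE.IR Pool.Agent.LE.QD Pool.Agent.LE.QF

variable {d M : ℕ} [NeZero M]

namespace UPB

theorem cardT : (Fintype.card (Tor d M) : ℝ) = (M : ℝ) ^ d := by
  have h : Fintype.card (Tor d M) = M ^ d := by
    simp [Tor, ZMod.card]
  rw [h]
  push_cast
  rfl

theorem n2_smul {X : Type} [Fintype X] (A : Matrix X X ℂ) (t : ℝ) (u : X → ℂ) :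
    n2 (((t : ℂ) • A) *ᵥ u) = t ^ 2 * n2 (A *ᵥ u) := by
  unfold n2
  rw [Finset.mul_sum]
  refine Finset.sum_congr rfl fun x _ => ?_
  rw [Matrix.smul_mulVec, Pi.smul_apply, norm_smul, mul_pow, Complex.norm_real, Real.norm_eq_abs,
    sq_abs]

theorem n2_nonneg {X : Type} [Fintype X] (u : X → ℂ) : 0 ≤ n2 u :=
  Finset.sum_nonneg fun _ _ => sq_nonneg _

/-- the rate -/
theorem rate (D : Dat d M) {c₁ C₁ c₀ κ K : ℝ} (hA : Adm D c₁ C₁ c₀)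
    (h1 : D.η ≤ κ) (h2 : κ ≤ D.w) (hK : 0 ≤ K) :
    4 * D.j * (K * (D.δ / κ)) / D.ε₁ + 8 * D.j ^ 2 * (K * (D.N + D.δ ^ 2 / κ)) / D.ε₁ ^ 2 ≤
      8 * K * D.aN / κ := by
  have hη : 0 < D.η := hA.hT.2.1
  have hκ0 : 0 < κ := hη.trans_le h1
  obtain ⟨-, -, hL, hN, hπ⟩ := hA.hj
  obtain ⟨hδ0, hδε, -⟩ := hA.hδ
  have hε : 0 < D.ε₁ := hδ0.trans_le hδε
  have hw : 0 < D.w := hκ0.trans_le h2
  have he : 0 < D.e₀ - 1 := by linarith [hA.he.1, hA.he.2.1]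
  have hch : 0 ≤ D.ch := by
    unfold Dat.ch
    positivity
  have hj : (0 : ℝ) ≤ D.j := Nat.cast_nonneg _
  have e1 : 4 * D.j * (K * (D.δ / κ)) / D.ε₁ = 4 * K * (D.j * (D.δ / D.ε₁)) / κ := by
    field_simp
  have e2 : 8 * D.j ^ 2 * (K * (D.N + D.δ ^ 2 / κ)) / D.ε₁ ^ 2 ≤
      8 * K * (D.j ^ 2 * ((D.N * D.w + D.δ ^ 2) / D.ε₁ ^ 2)) / κ := by
    have e3 : D.N + D.δ ^ 2 / κ = (D.N * κ + D.δ ^ 2) / κ := by
      field_simp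
    have e4 : (D.N * κ + D.δ ^ 2) / κ ≤ (D.N * D.w + D.δ ^ 2) / κ := by
      gcongr
    have e5 : 8 * D.j ^ 2 * (K * (D.N + D.δ ^ 2 / κ)) / D.ε₁ ^ 2 ≤
        8 * D.j ^ 2 * (K * ((D.N * D.w + D.δ ^ 2) / κ)) / D.ε₁ ^ 2 := by
      rw [e3]
      gcongr
    refine e5.trans (le_of_eq ?_)
    field_simp
  have e5 : D.j * (D.δ / D.ε₁) + D.j ^ 2 * ((D.N * D.w + D.δ ^ 2) / D.ε₁ ^ 2) ≤ D.aN := by
    unfold Dat.aN
    have hh : 0 ≤ D.h := by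
      unfold Dat.h
      positivity
    have a1 : 0 ≤ D.j * (D.h ^ 2 * (D.δ + Real.sqrt D.ch / D.δ)) := by positivity
    have a3 : 0 ≤ 1 / Real.sqrt D.L₀ := by positivity
    have a4 : 0 ≤ (D.j : ℝ) ^ 2 * (D.h ^ 4 * (D.ch / D.δ ^ 2) + 1 / Real.sqrt D.L₀ + D.ε₁ +
      (D.e₀ - 1)) := by positivity
    have a5 : 0 ≤ D.p * D.δ + D.p ^ 2 * (D.N * D.w + D.δ ^ 2 + D.π₀) := by positivity
    nlinarith
  have e6 : 0 ≤ D.j * (D.δ / D.ε₁) := by positivity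
  have e7 : 0 ≤ (D.j : ℝ) ^ 2 * ((D.N * D.w + D.δ ^ 2) / D.ε₁ ^ 2) := by positivity
  have e8 : 4 * K * (D.j * (D.δ / D.ε₁)) / κ +
      8 * K * (D.j ^ 2 * ((D.N * D.w + D.δ ^ 2) / D.ε₁ ^ 2)) / κ ≤ 8 * K * D.aN / κ := by
    rw [← add_div]
    gcongr
    nlinarith [mul_nonneg hK e6, mul_nonneg hK e7, mul_le_mul_of_nonneg_left e5 hK]
  rw [e1]
  linarith

end UPB

open UPB in
/-- UPB -/
theorem upb (jtb : JtbStmt) (nrb : NrbStmt) (ytu : YtuStmt) (rsj : RsjStmt) : UpbStmt := by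
  intro c₁ C₁ C₀ hc₁ hC₁ hC₀
  obtain ⟨P, hP, nrb⟩ := nrb C₀ hC₀
  have hC2 : (1 : ℝ) ≤ C₀ ^ 2 := one_le_pow₀ hC₀
  have hK1 : (1 : ℝ) ≤ C₀ ^ 2 * P := one_le_mul_of_one_le_of_one_le hC2 hP
  refine ⟨8 * (C₀ ^ 2 * P), by linarith, ?_⟩
  intro d M _ D c₀ κ τ q hc₀ hA hq0 hqT hg
  obtain ⟨hκe, hτe, h1, h2, hτ0, hτ1, hτ2⟩ := hg.hκ
  have hη : 0 < D.η := hA.hT.2.1
  have hκ0 : 0 < κ := hη.trans_le h1
  obtain ⟨hδ0, hδε, hεc⟩ := hA.hδ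
  have hε : 0 < D.ε₁ := hδ0.trans_le hδε
  have hN : 0 ≤ D.N := by linarith [hA.hj.2.2.2.1]
  have hr := rsj d M D c₁ C₁ c₀ q hc₁ hA (hκe ▸ hκ0)
  have hJ := hr.1
  rw [← hτe] at hJ
  obtain ⟨-, -, -, n4, n5, n6⟩ := nrb (Tor d M) (D.G q) (D.mu q) D.nr κ τ D.δ D.N hg.hG
  obtain ⟨-, -, -, j4, -⟩ := jtb (Tor d M) q D.G D.ta (D.G q) D.m τ (D.mu q) hJ rfl
  have hYe : (fun r => (D.ta r.1 : ℂ) • BB (D.G r)) = D.Y := rfl
  have hYq : D.Y q = (τ : ℂ) • BB (D.G q) := by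
    rw [hτe]
    rfl
  rw [hYe] at j4
  have hτc : (τ : ℂ) ≠ 0 := by exact_mod_cast hτ0.ne'
  have hl : -BB (D.G q) + (τ : ℂ) • (BB (D.G q) * BB (D.G q) + EB (D.G q) (D.mu q)) =
      -(((1 / τ : ℝ) : ℂ) • ((τ : ℂ) • BB (D.G q) - ((τ : ℂ) • BB (D.G q)) *
        ((τ : ℂ) • BB (D.G q)))) + (τ : ℂ) • EB (D.G q) (D.mu q) := by
    have e1 : ((1 / τ : ℝ) : ℂ) * (τ : ℂ) = 1 := by
      push_cast
      field_simp
    rw [smul_sub, smul_smul, e1, one_smul, Matrix.smul_mul, Matrix.mul_smul, smul_smul, smul_smul,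
      smul_add, e1, one_mul]
    abel
  rw [hl] at j4
  have hτκ : τ / κ ≤ C₀ := by
    rw [div_le_iff₀ hκ0]
    exact hτ1
  have hτκ2 : τ ^ 2 ≤ C₀ ^ 2 * κ ^ 2 := by
    rw [← mul_pow]
    exact pow_le_pow_left₀ hτ0.le hτ1 2
  obtain ⟨g', l', J, hl'⟩ := ytu (Tor d M) q (Tor d M) D.Y ((τ : ℂ) • BB (D.G q))
    ((τ : ℂ) • EB (D.G q) (D.mu q)) (fun c => (τ : ℂ) • dB (D.G q) c) τ
    (C₀ ^ 2 * P * (D.δ / κ)) D.ε₁ (C₀ ^ 2 * P * (D.N + D.δ ^ 2 / κ)) D.j hτ0 (by positivity) hε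
    (by positivity) (by linarith [hA.hj.1]) j4
    (fun u => by
      rw [n2_smul]
      have h5 := hg.hB u
      have h6 : τ ^ 2 * n2 (BB (D.G q) *ᵥ u) ≤ τ ^ 2 * ((D.ε₁ / τ) ^ 2 * n2 u) :=
        mul_le_mul_of_nonneg_left h5 (by positivity)
      have h7 : τ ^ 2 * ((D.ε₁ / τ) ^ 2 * n2 u) = D.ε₁ ^ 2 * n2 u := by
        field_simp
      have h8 : D.ε₁ ^ 2 ≤ 1 := pow_le_one₀ hε.le (by linarith)
      have h9 := mul_le_mul_of_nonneg_right h8 (n2_nonneg u)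
      linarith)
    (fun u => by
      rw [n2_smul]
      have h6 : τ ^ 2 * n2 (EB (D.G q) (D.mu q) *ᵥ u) ≤
          C₀ ^ 2 * κ ^ 2 * ((P * D.δ / κ ^ 2) ^ 2 * n2 u) :=
        mul_le_mul hτκ2 (n4 u) (n2_nonneg _) (by positivity)
      have h7 : C₀ ^ 2 * κ ^ 2 * ((P * D.δ / κ ^ 2) ^ 2 * n2 u) =
          C₀ ^ 2 * ((P * (D.δ / κ)) ^ 2 * n2 u) := by
        field_simp
      have h8 : (C₀ ^ 2 * P * (D.δ / κ)) ^ 2 * n2 u =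
          C₀ ^ 2 * (C₀ ^ 2 * ((P * (D.δ / κ)) ^ 2 * n2 u)) := by ring
      rw [h8]
      rw [h7] at h6
      refine h6.trans (le_mul_of_one_le_left ?_ hC2)
      have := n2_nonneg u
      positivity)
    (fun u => by
      simp only [n2_smul]
      rw [← Finset.mul_sum]
      have h6 : τ ^ 2 * ∑ c, n2 (dB (D.G q) c *ᵥ u) ≤
          C₀ ^ 2 * κ ^ 2 * (P * (D.N / κ ^ 2 + D.δ ^ 2 / κ ^ 3) * n2 u) :=
        mul_le_mul hτκ2 (n5 u) (Finset.sum_nonneg fun _ _ => n2_nonneg _) (by positivity)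
      refine h6.trans (le_of_eq ?_)
      field_simp)
    (fun u => by
      have h5 : ∀ c, ((τ : ℂ) • dB (D.G q) c)ᴴ = (τ : ℂ) • (dB (D.G q) c)ᴴ := by
        intro c
        rw [Matrix.conjTranspose_smul]
        congr 1
        exact Complex.conj_ofReal τ
      simp only [h5, n2_smul]
      rw [← Finset.mul_sum]
      have h6 : τ ^ 2 * ∑ c, n2 ((dB (D.G q) c)ᴴ *ᵥ u) ≤
          C₀ ^ 2 * κ ^ 2 * (P * (D.N / κ ^ 2 + D.δ ^ 2 / κ ^ 3) * n2 u) :=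
        mul_le_mul hτκ2 (n6 u) (Finset.sum_nonneg fun _ _ => n2_nonneg _) (by positivity)
      refine h6.trans (le_of_eq ?_)
      field_simp)
  rw [← hYq] at J hl'
  have J' : HJ D.U3 q (D.U3 q) g' l' := J
  refine ⟨J'.sm, ?_⟩
  rw [J'.ge]
  have e1 : (Matrix.trace ((D.Y q * (D.Y q)ᴴ) ^ D.j)).re / D.ε₁ ^ (2 * D.j) = D.U3 q := rfl
  rw [e1, cardT] at hl'
  have hU : 0 ≤ D.U3 q := by
    have hps : ((D.Y q * (D.Y q)ᴴ) ^ D.j).PosSemidef :=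
      (Matrix.posSemidef_self_mul_conjTranspose (D.Y q)).pow D.j
    have h5 := (Complex.le_def.1 hps.trace_nonneg).1
    unfold Dat.U3
    exact div_nonneg h5 (by positivity)
  have hM : (1 : ℝ) ≤ (M : ℝ) ^ d :=
    one_le_pow₀ (by exact_mod_cast Nat.one_le_iff_ne_zero.2 (NeZero.ne M))
  have e3 : (M : ℝ) ^ d ≤ ((M : ℝ) ^ d) ^ 2 := by nlinarith
  have e4 : (M : ℝ) ^ d * (1 / 4) ^ D.j ≤ ((M : ℝ) ^ d) ^ 2 * (1 / 4) ^ D.j :=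
    mul_le_mul_of_nonneg_right e3 (by positivity)
  have e5 : 0 ≤ (M : ℝ) ^ d * (1 / 4) ^ D.j := by positivity
  have r := rate D (K := C₀ ^ 2 * P) hA h1 h2 (by linarith)
  have r0 : 0 ≤ 4 * D.j * (C₀ ^ 2 * P * (D.δ / κ)) / D.ε₁ +
      8 * D.j ^ 2 * (C₀ ^ 2 * P * (D.N + D.δ ^ 2 / κ)) / D.ε₁ ^ 2 := by positivity
  refine hl'.trans ?_
  refine (mul_le_mul_of_nonneg_right r (by linarith)).trans ?_
  exact mul_le_mul_of_nonneg_left (by linarith) (r0.trans r)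

end Pool.Agent.LE.QX.H87
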